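import Pool.Agent.Helper212.CohenE.Main

namespace Pool.Agent.Results.MP_f12a7c_lc.CohenHyperfinite

open CohenE

/-- For every countable transitive model `M` of ZFC, the equivalence relation `M[x] = M[y]` on the
space of Cohen reals over `M` is hyperfinite. -/
theorem result (M : Set ZFSet.{0}) (hM : CTM M) : Hyperfinite (EM M) :=
  hyperfinite_EM M hM

end Pool.Agent.Results.MP_f12a7c_lc.CohenHyperfinite
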